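import Mathlib
import Pool.Agent.W343.Liou2

/-!
MP_2579e4_al: the answer to Q1 is negative. There is a countable non-amenable group with a faithful
action which is `n`-Liouville for every `n`, and one symmetric measure works for all `n`.

The group consists of all pairs `(σ, γ)` where `γ` is in `SL(2, ℤ)` and `σ` is a permutation of the
disjoint union `X` of the sets `(ℤ / (m + 1))^2` which agrees with `γ` at all but finitely many
points. It acts on `X` through `σ`.
-/

set_option autoImplicit false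

open scoped Pointwise

namespace Pool.Agent.Results.MP_2579e4_al.NonamenableAllLiouville

/-- `μ` is (the mass function of) a probability measure on the discrete group `G`. -/
def IsProbability {G : Type} (μ : G → ℝ) : Prop := (∀ g, 0 ≤ μ g) ∧ HasSum μ 1

/-- `μ` is non-degenerate: its support generates `G` as a semigroup. -/
def NonDegenerate {G : Type} [Group G] (μ : G → ℝ) : Prop :=
  Subsemigroup.closure {g : G | μ g ≠ 0} = ⊤

/-- The transition probability `p_μ(y, z)`: the sum of `μ g` over all `g` in `G` with `g y = z`. -/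
noncomputable def transition {G : Type} [Group G] {Y : Type} [MulAction G Y] (μ : G → ℝ)
    (y z : Y) : ℝ := ∑' g : {g : G | g • y = z}, μ g

/-- `f` is `μ`-harmonic: `f y` is the sum of `f z * p_μ(y, z)` over all `z`. -/
def Harmonic {G : Type} [Group G] {Y : Type} [MulAction G Y] (μ : G → ℝ) (f : Y → ℝ) : Prop :=
  ∀ y, f y = ∑' z, f z * transition μ y z

/-- The action of `G` on `Y` is `μ`-Liouville: bounded `μ`-harmonic functions are constant. -/
def LiouvilleFor {G : Type} [Group G] (μ : G → ℝ) (Y : Type) [MulAction G Y] : Prop :=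
  ∀ f : Y → ℝ, (∃ M : ℝ, ∀ y, |f y| ≤ M) → Harmonic μ f → ∀ y z, f y = f z

/-- `G` is amenable: there is a left invariant finitely additive probability measure defined on
all subsets of `G`. -/
def Amenable (G : Type) [Group G] : Prop :=
  ∃ m : Set G → ℝ, (∀ A, 0 ≤ m A) ∧ m Set.univ = 1 ∧
    (∀ A B, Disjoint A B → m (A ∪ B) = m A + m B) ∧
    ∀ (g : G) (A : Set G), m ((fun x => g * x) '' A) = m A

/-! ### The group -/

/-- `SL(2, ℤ)` -/
abbrev Gam : Type := Matrix.SpecialLinearGroup (Fin 2) ℤ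

/-- the set on which the group acts -/
abbrev X : Type := Σ m : ℕ, (Fin 2 → ZMod (m + 1))

/-- the action of `SL(2, ℤ)` on `X` -/
def rho : Gam →* Equiv.Perm X :=
  MonoidHom.toHomPerm
    { toFun := fun γ x =>
        ⟨x.1, ((Int.castRingHom (ZMod (x.1 + 1))).mapMatrix γ.1).mulVec x.2⟩
      map_one' := by
        funext x
        refine Sigma.ext rfl (heq_of_eq ?_)
        simp
        rfl
      map_mul' := by
        intro a b
        funext x
        refine Sigma.ext rfl (heq_of_eq ?_)
        show ((Int.castRingHom (ZMod (x.1 + 1))).mapMatrix (a * b).1).mulVec x.2 =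
          ((Int.castRingHom (ZMod (x.1 + 1))).mapMatrix a.1).mulVec
            (((Int.castRingHom (ZMod (x.1 + 1))).mapMatrix b.1).mulVec x.2)
        rw [Matrix.mulVec_mulVec, ← map_mul]
        rfl }

theorem rho_apply (γ : Gam) (x : X) :
    rho γ x = ⟨x.1, ((Int.castRingHom (ZMod (x.1 + 1))).mapMatrix γ.1).mulVec x.2⟩ := rfl

theorem rho_lev (γ : Gam) (x : X) : (rho γ x).1 = x.1 := rfl

/-- the set of points where `σ` differs from `γ` -/
def bad (p : Equiv.Perm X × Gam) : Set X := {x | p.1 x ≠ rho p.2 x}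

/-- the group -/
def GG : Subgroup (Equiv.Perm X × Gam) where
  carrier := {p | (bad p).Finite}
  mul_mem' := by
    intro p q hp hq
    have hp : (bad p).Finite := hp
    have hq : (bad q).Finite := hq
    show (bad (p * q)).Finite
    refine (hq.union (hp.preimage (q.1.injective.injOn))).subset ?_
    intro x hx
    by_contra hcon
    simp only [Set.mem_union, not_or] at hcon
    obtain ⟨h1, h2⟩ := hcon
    have h1 : q.1 x = rho q.2 x := by
      by_contra h; exact h1 h
    have h2 : p.1 (q.1 x) = rho p.2 (q.1 x) := by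
      by_contra h; exact h2 h
    apply hx
    show p.1 (q.1 x) = rho (p.2 * q.2) x
    rw [h2, h1, map_mul]
    rfl
  one_mem' := by
    show (bad 1).Finite
    have : bad 1 = ∅ := by
      ext x
      simp [bad]
    rw [this]
    exact Set.finite_empty
  inv_mem' := by
    intro p hp
    have hp : (bad p).Finite := hp
    show (bad p⁻¹).Finite
    refine (hp.image (rho p.2)).subset ?_
    intro x hx
    refine ⟨(rho p.2)⁻¹ x, ?_, (rho p.2).apply_symm_apply x⟩
    intro h
    apply hx
    show p.1⁻¹ x = rho p.2⁻¹ x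
    rw [map_inv]
    have h3 : rho p.2 ((rho p.2)⁻¹ x) = x := (rho p.2).apply_symm_apply x
    rw [h3] at h
    rw [Equiv.Perm.inv_eq_iff_eq]
    exact h.symm

/-- the action of the group on `X` -/
instance actG : MulAction GG X :=
  MulAction.compHom X ((MonoidHom.fst (Equiv.Perm X) Gam).comp GG.subtype)

theorem smul_def (g : GG) (x : X) : g • x = g.1.1 x := rfl

theorem finite_lev (j : ℕ) : Finite {x : X // x.1 ≤ j} := by
  let f : {x : X // x.1 ≤ j} → Σ m : Fin (j + 1), (Fin 2 → ZMod ((m : ℕ) + 1)) :=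
    fun x => ⟨⟨x.1.1, by have := x.2; omega⟩, x.1.2⟩
  refine Finite.of_injective f ?_
  rintro ⟨⟨m, v⟩, hm⟩ ⟨⟨m', v'⟩, hm'⟩ h
  simp only [f, Sigma.mk.injEq, Fin.mk.injEq] at h
  obtain ⟨h1, h2⟩ := h
  subst h1
  have := eq_of_heq h2
  subst this
  rfl

theorem level_preserved (g : GG) : ∃ J, ∀ j, J ≤ j → ∀ x : X, x.1 ≤ j → (g • x).1 ≤ j := by
  have hfin : (bad g.1).Finite := g.2
  obtain ⟨J, hJ⟩ := (hfin.image (fun x : X => (g • x).1)).bddAbove
  refine ⟨J, fun j hj x hx => ?_⟩
  by_cases h : x ∈ bad g.1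
  · exact (hJ ⟨x, h, rfl⟩).trans hj
  · have : g.1.1 x = rho g.1.2 x := by
      by_contra h'; exact h h'
    rw [smul_def, this]
    exact hx

/-- the finite symmetric groups in the group -/
noncomputable def phi (j : ℕ) : Equiv.Perm {x : X // x.1 ≤ j} →* GG where
  toFun := fun k => ⟨(Equiv.Perm.ofSubtype k, 1), by
    show (bad _).Finite
    have h1 : Finite {x : X // x.1 ≤ j} := finite_lev j
    have h2 : ({x : X | x.1 ≤ j} : Set X).Finite := h1
    refine h2.subset ?_
    intro x hx
    by_contra h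
    apply hx
    show Equiv.Perm.ofSubtype k x = rho 1 x
    rw [Equiv.Perm.ofSubtype_apply_of_not_mem k h, map_one]
    rfl⟩
  map_one' := by
    apply Subtype.ext
    show (Equiv.Perm.ofSubtype 1, (1 : Gam)) = 1
    rw [map_one]
    rfl
  map_mul' := by
    intro a b
    apply Subtype.ext
    show (Equiv.Perm.ofSubtype (a * b), (1 : Gam)) = (Equiv.Perm.ofSubtype a * Equiv.Perm.ofSubtype b, 1 * 1)
    rw [map_mul, mul_one]

theorem phi_smul (j : ℕ) (k : Equiv.Perm {x : X // x.1 ≤ j}) (x : X) :
    phi j k • x = Equiv.Perm.ofSubtype k x := rfl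

theorem countable_GG : Countable GG := by
  classical
  have hX : Countable X := inferInstance
  have hM : Countable (Matrix (Fin 2) (Fin 2) ℤ) := by
    unfold Matrix
    infer_instance
  have hG : Countable Gam := Subtype.countable
  have hfin : ∀ g : GG, (bad g.1).Finite := fun g => g.2
  let f : GG → Gam × Finset (X × X) := fun g =>
    (g.1.2, (hfin g).toFinset.image (fun x => (x, g.1.1 x)))
  refine Function.Injective.countable (f := f) ?_
  have key : ∀ g g' : GG, f g = f g' → ∀ x, x ∈ bad g.1 → g.1.1 x = g'.1.1 x := by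
    intro g g' h x hx
    have h2 := congrArg Prod.snd h
    have h3 : (x, g.1.1 x) ∈ (hfin g).toFinset.image (fun x => (x, g.1.1 x)) := by
      refine Finset.mem_image.mpr ⟨x, ?_, rfl⟩
      simpa using hx
    have h4 : (x, g.1.1 x) ∈ (hfin g').toFinset.image (fun x => (x, g'.1.1 x)) := by
      have h5 : (hfin g).toFinset.image (fun x => (x, g.1.1 x)) =
        (hfin g').toFinset.image (fun x => (x, g'.1.1 x)) := h2
      rw [← h5]; exact h3
    obtain ⟨y, -, hy⟩ := Finset.mem_image.mp h4
    have h6 : y = x := congrArg Prod.fst hy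
    have h7 : g'.1.1 y = g.1.1 x := congrArg Prod.snd hy
    rw [← h7, h6]
  intro g g' h
  have h1 : g.1.2 = g'.1.2 := congrArg Prod.fst h
  apply Subtype.ext
  refine Prod.ext ?_ h1
  apply Equiv.ext
  intro x
  by_cases hx : x ∈ bad g.1
  · exact key g g' h x hx
  · by_cases hx' : x ∈ bad g'.1
    · exact (key g' g h.symm x hx').symm
    · have e1 : g.1.1 x = rho g.1.2 x := by
        by_contra h'; exact hx h'
      have e2 : g'.1.1 x = rho g'.1.2 x := by
        by_contra h'; exact hx' h'
      rw [e1, e2, h1]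

/-- An element of `SL(2, ℤ)` acting trivially at all but finitely many points is trivial. -/
theorem eq_one_of_finite (γ : Gam) (h : {x : X | x ≠ rho γ x}.Finite) : γ = 1 := by
  obtain ⟨N, hN⟩ := (h.image (fun x : X => x.1)).bddAbove
  have h1 : ∀ m, N < m → ∀ v : Fin 2 → ZMod (m + 1),
      ((Int.castRingHom (ZMod (m + 1))).mapMatrix γ.1).mulVec v = v := by
    intro m hm v
    by_contra hcon
    have hx : (⟨m, v⟩ : X) ∈ {x : X | x ≠ rho γ x} := by
      intro h'
      apply hcon
      rw [rho_apply] at h'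
      have := (Sigma.mk.inj_iff.mp h').2
      exact (eq_of_heq this).symm
    have := hN ⟨_, hx, rfl⟩
    simp only at this
    omega
  have h2 : ∀ m, N < m → (Int.castRingHom (ZMod (m + 1))).mapMatrix γ.1 = 1 := by
    intro m hm
    apply Matrix.ext_of_mulVec_single
    intro i
    rw [h1 m hm, Matrix.one_mulVec]
  have h3 : ∀ i j, ∀ m, N < m → ((γ.1 i j - (1 : Matrix (Fin 2) (Fin 2) ℤ) i j : ℤ) : ZMod (m + 1)) = 0 := by
    intro i j m hm
    have h4 := congrFun (congrFun (h2 m hm) i) j
    have h5 : ((γ.1 i j : ℤ) : ZMod (m + 1)) = (1 : Matrix (Fin 2) (Fin 2) (ZMod (m + 1))) i j := h4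
    push_cast
    rw [h5]
    by_cases hij : i = j
    · subst hij; simp
    · simp [hij]
  have h6 : ∀ i j, γ.1 i j = (1 : Matrix (Fin 2) (Fin 2) ℤ) i j := by
    intro i j
    set d : ℤ := γ.1 i j - (1 : Matrix (Fin 2) (Fin 2) ℤ) i j with hd
    have h7 : d = 0 := by
      have h8 := h3 i j (N + 1 + d.natAbs) (by omega)
      rw [← hd, ZMod.intCast_zmod_eq_zero_iff_dvd] at h8
      by_contra h9
      have h10 := Int.natAbs_dvd_natAbs.mpr h8
      have h11 := Nat.le_of_dvd (Int.natAbs_pos.mpr h9) h10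
      rw [Int.natAbs_natCast] at h11
      omega
    linarith [hd ▸ h7]
  apply Subtype.ext
  ext i j
  exact h6 i j

theorem faithful : ∀ g : GG, (∀ x : X, g • x = x) → g = 1 := by
  intro g hg
  have h1 : g.1.1 = 1 := by
    apply Equiv.ext
    intro x
    exact hg x
  have h2 : g.1.2 = 1 := by
    apply eq_one_of_finite
    have hb : (bad g.1).Finite := g.2
    have : bad g.1 = {x : X | x ≠ rho g.1.2 x} := by
      unfold bad
      rw [h1]
      rfl
    rwa [this] at hb
  apply Subtype.ext
  exact Prod.ext h1 h2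

/-! ### The group is not amenable -/

/-- upper unitriangular -/
def ua (n : ℤ) : Gam := ⟨!![1, n; 0, 1], by simp [Matrix.det_fin_two]⟩

/-- lower unitriangular -/
def la (n : ℤ) : Gam := ⟨!![1, 0; n, 1], by simp [Matrix.det_fin_two]⟩

/-- lift to the group -/
def lift (γ : Gam) : GG := ⟨(rho γ, γ), by
  show (bad _).Finite
  have : bad (rho γ, γ) = ∅ := by
    ext x
    simp [bad]
  rw [this]
  exact Set.finite_empty⟩

theorem not_amenable : ¬ Amenable GG := by
  rintro ⟨m, hpos, huniv, hadd, hinv⟩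
  have hmono : ∀ A B : Set GG, A ⊆ B → m A ≤ m B := by
    intro A B hAB
    have h := hadd A (B \ A) Set.disjoint_sdiff_right
    rw [Set.union_sdiff_cancel hAB] at h
    linarith [hpos (B \ A)]
  have hcol : ∀ g : GG, ¬ (g.1.2.1 0 0 = 0 ∧ g.1.2.1 1 0 = 0) := by
    rintro g ⟨h0, h1⟩
    have hdet := g.1.2.2
    rw [Matrix.det_fin_two, h0, h1] at hdet
    simp at hdet
  -- three disjoint translates
  have third : ∀ (S : Set GG) (u : GG), (∀ g ∈ S, u * g ∉ S) → (∀ g ∈ S, u * (u * g) ∉ S) →
      m S ≤ 1 / 3 := by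
    intro S u h1 h2
    have d1 : Disjoint S ((fun x => u * x) '' S) := by
      rw [Set.disjoint_left]
      rintro _ hx ⟨g, hg, rfl⟩
      exact h1 g hg hx
    have d2 : Disjoint (S ∪ (fun x => u * x) '' S)
        ((fun x => u * x) '' ((fun x => u * x) '' S)) := by
      rw [Set.disjoint_left]
      rintro x hx ⟨_, ⟨g, hg, rfl⟩, rfl⟩
      rcases hx with hx | ⟨g', hg', h'⟩
      · exact h2 g hg hx
      · have : g' = u * g := mul_left_cancel h'
        rw [this] at hg'
        exact h1 g hg hg'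
    have e1 := hadd _ _ d1
    have e2 := hadd _ _ d2
    have e3 := hmono (S ∪ (fun x => u * x) '' S ∪ (fun x => u * x) '' ((fun x => u * x) '' S))
      Set.univ (Set.subset_univ _)
    rw [e2, e1, huniv] at e3
    have e4 := hinv u S
    have e5 := hinv u ((fun x => u * x) '' S)
    linarith
  let S₁ : Set GG := {g | |g.1.2.1 0 0| ≤ |g.1.2.1 1 0|}
  let S₂ : Set GG := {g | |g.1.2.1 1 0| ≤ |g.1.2.1 0 0|}
  have hS : S₁ ∪ S₂ = Set.univ := by
    ext g
    simp only [Set.mem_union, Set.mem_univ, iff_true]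
    exact le_total (|g.1.2.1 0 0|) (|g.1.2.1 1 0|)
  have hu0 : ∀ (n : ℤ) (g : GG), (lift (ua n) * g).1.2.1 0 0 = g.1.2.1 0 0 + n * g.1.2.1 1 0 := by
    intro n g
    show (!![1, n; 0, 1] * g.1.2.1) 0 0 = _
    simp [Matrix.mul_apply, Fin.sum_univ_two]
  have hu1 : ∀ (n : ℤ) (g : GG), (lift (ua n) * g).1.2.1 1 0 = g.1.2.1 1 0 := by
    intro n g
    show (!![1, n; 0, 1] * g.1.2.1) 1 0 = _
    simp [Matrix.mul_apply, Fin.sum_univ_two]
  have hl0 : ∀ (n : ℤ) (g : GG), (lift (la n) * g).1.2.1 0 0 = g.1.2.1 0 0 := by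
    intro n g
    show (!![1, 0; n, 1] * g.1.2.1) 0 0 = _
    simp [Matrix.mul_apply, Fin.sum_univ_two]
  have hl1 : ∀ (n : ℤ) (g : GG), (lift (la n) * g).1.2.1 1 0 = n * g.1.2.1 0 0 + g.1.2.1 1 0 := by
    intro n g
    show (!![1, 0; n, 1] * g.1.2.1) 1 0 = _
    simp [Matrix.mul_apply, Fin.sum_univ_two]
  have arith : ∀ x y n : ℤ, 3 ≤ n → |x| ≤ |y| → ¬ (x = 0 ∧ y = 0) → ¬ (|x + n * y| ≤ |y|) := by
    intro x y n hn hxy h0 hcon
    have hy : 0 < |y| := by
      rcases (abs_nonneg y).lt_or_eq with h | h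
      · exact h
      · exfalso
        have hy0 : y = 0 := abs_eq_zero.mp h.symm
        have hx0 : x = 0 := by
          rw [hy0, abs_zero] at hxy
          exact abs_eq_zero.mp (le_antisymm hxy (abs_nonneg _))
        exact h0 ⟨hx0, hy0⟩
    have h1 : |n * y| ≤ |x + n * y| + |x| := by
      have := abs_sub (x + n * y) x
      have h2 : x + n * y - x = n * y := by ring
      rw [h2] at this
      exact this
    rw [abs_mul, abs_of_pos (by omega : 0 < n)] at h1
    nlinarith
  have e1 : m S₁ ≤ 1 / 3 := by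
    refine third S₁ (lift (ua 3)) ?_ ?_
    · intro g hg hcon
      have hcon : |(lift (ua 3) * g).1.2.1 0 0| ≤ |(lift (ua 3) * g).1.2.1 1 0| := hcon
      rw [hu0, hu1] at hcon
      exact arith _ _ 3 le_rfl hg (hcol g) hcon
    · intro g hg hcon
      have hcon : |(lift (ua 3) * (lift (ua 3) * g)).1.2.1 0 0| ≤
        |(lift (ua 3) * (lift (ua 3) * g)).1.2.1 1 0| := hcon
      simp only [hu0, hu1] at hcon
      refine arith _ _ 6 (by norm_num) hg (hcol g) ?_
      have : g.1.2.1 0 0 + 3 * g.1.2.1 1 0 + 3 * g.1.2.1 1 0 = g.1.2.1 0 0 + 6 * g.1.2.1 1 0 := by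
        ring
      rwa [this] at hcon
  have e2 : m S₂ ≤ 1 / 3 := by
    refine third S₂ (lift (la 3)) ?_ ?_
    · intro g hg hcon
      have hcon : |(lift (la 3) * g).1.2.1 1 0| ≤ |(lift (la 3) * g).1.2.1 0 0| := hcon
      rw [hl0, hl1] at hcon
      refine arith _ _ 3 le_rfl hg (fun h => hcol g ⟨h.2, h.1⟩) ?_
      rwa [add_comm] at hcon
    · intro g hg hcon
      have hcon : |(lift (la 3) * (lift (la 3) * g)).1.2.1 1 0| ≤
        |(lift (la 3) * (lift (la 3) * g)).1.2.1 0 0| := hcon
      simp only [hl0, hl1] at hcon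
      refine arith _ _ 6 (by norm_num) hg (fun h => hcol g ⟨h.2, h.1⟩) ?_
      have : 3 * g.1.2.1 0 0 + (3 * g.1.2.1 0 0 + g.1.2.1 1 0) = g.1.2.1 1 0 + 6 * g.1.2.1 0 0 := by
        ring
      rwa [this] at hcon
  have e3 : m (S₁ ∪ S₂) ≤ m S₁ + m S₂ := by
    have h := hadd S₁ (S₂ \ S₁) Set.disjoint_sdiff_right
    rw [Set.union_sdiff_self] at h
    rw [h]
    have := hmono (S₂ \ S₁) S₂ Set.sdiff_subset
    linarith
  rw [hS, huniv] at e3
  linarith

/-- There are a countable non-amenable group `G`, a faithful action of `G` on an infinite set `X`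
and one symmetric non-degenerate probability measure `μ` on `G` such that, for every `n ≥ 1`, the
induced action of `G` on the set of `n`-element subsets of `X` is `μ`-Liouville. -/
theorem result :
    ∃ (G : Type) (_ : Group G) (X : Type) (_ : DecidableEq X) (_ : MulAction G X),
      Countable G ∧ Infinite X ∧ FaithfulSMul G X ∧ ¬ Amenable G ∧
      ∃ μ : G → ℝ, IsProbability μ ∧ NonDegenerate μ ∧ (∀ g, μ g⁻¹ = μ g) ∧
        ∀ n : ℕ, 1 ≤ n → LiouvilleFor μ (Set.powersetCard X n) := by
  have hc := countable_GG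
  obtain ⟨μ, h1, h2, h3, h4⟩ := Pool.Agent.W343.Liou.criterion (G := GG) (X := X)
    (fun x => x.1) finite_lev level_preserved phi phi_smul
  refine ⟨GG, inferInstance, X, inferInstance, actG, hc, ?_, ⟨?_⟩, not_amenable, μ,
    ⟨fun g => (h1 g).le, h3⟩, ?_, h2, ?_⟩
  · exact Infinite.of_injective (fun m : ℕ => (⟨m, 0⟩ : X)) (fun a b h => congrArg Sigma.fst h)
  · intro g g' h
    have := faithful (g⁻¹ * g') (fun x => by
      rw [mul_smul, ← h x, ← mul_smul, inv_mul_cancel, one_smul])
    exact (inv_mul_eq_one.mp this)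
  · unfold NonDegenerate
    have : {g : GG | μ g ≠ 0} = Set.univ := by
      ext g
      simp [(h1 g).ne']
    rw [this]
    exact Subsemigroup.closure_univ
  · intro n _ f hf hh y z
    exact h4 n f hf hh y z

end Pool.Agent.Results.MP_2579e4_al.NonamenableAllLiouville
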